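import Pool.Agent.H59.LIN.Targets

/-!
# The evaluation of the HOMFLYPT power series at `s = δ = √2`
-/

open Finset Polynomial
open Pool.Agent.H59.LIN

namespace Pool.Agent.H60.LIN

/-- the partial sums of the evaluation -/
noncomputable def psum (M : ℕ) (f : KK) : Zsqrtd 2 :=
  ∑ m ∈ range M, (PowerSeries.coeff m f).eval₂ (Int.castRingHom _) r2 * r2 ^ m

theorem psum_add (M : ℕ) (f g : KK) : psum M (f + g) = psum M f + psum M g := by
  unfold psum
  rw [← Finset.sum_add_distrib]
  apply Finset.sum_congr rfl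
  intro m _
  rw [map_add, Polynomial.eval₂_add, add_mul]

theorem psum_neg (M : ℕ) (f : KK) : psum M (-f) = -psum M f := by
  unfold psum
  rw [← Finset.sum_neg_distrib]
  apply Finset.sum_congr rfl
  intro m _
  rw [map_neg, Polynomial.eval₂_neg, neg_mul]

theorem psum_dK (M : ℕ) (f : KK) : psum M (dK * f) = r2 * psum M f := by
  unfold psum dK
  rw [Finset.mul_sum]
  apply Finset.sum_congr rfl
  intro m _
  rw [PowerSeries.coeff_C_mul, Polynomial.eval₂_mul, Polynomial.eval₂_X]
  ring

theorem psum_sK (M : ℕ) (f : KK) : ∃ z, psum M (sK * f) = r2 * psum M f + r2 ^ M * z := by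
  unfold psum sK
  induction M with
  | zero => exact ⟨0, by simp⟩
  | succ M ih =>
    obtain ⟨z, hz⟩ := ih
    refine ⟨-(PowerSeries.coeff M f).eval₂ (Int.castRingHom _) r2, ?_⟩
    rcases Nat.eq_zero_or_pos M with h0 | h0
    · subst h0
      rw [zero_add, Finset.sum_range_one, Finset.sum_range_one, PowerSeries.coeff_zero_X_mul,
        Polynomial.eval₂_zero]
      ring
    · have h1 : ∀ k, ∑ m ∈ range (k + 1), (PowerSeries.coeff m (PowerSeries.X * f)).eval₂
          (Int.castRingHom (Zsqrtd 2)) r2 * r2 ^ m =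
          r2 * ∑ m ∈ range k, (PowerSeries.coeff m f).eval₂
          (Int.castRingHom (Zsqrtd 2)) r2 * r2 ^ m := by
        intro k
        rw [Finset.sum_range_succ', Finset.mul_sum, PowerSeries.coeff_zero_X_mul,
          Polynomial.eval₂_zero, zero_mul, add_zero]
        apply Finset.sum_congr rfl
        intro m _
        rw [PowerSeries.coeff_succ_X_mul, pow_succ]
        ring
      rw [h1 M, Finset.sum_range_succ]
      ring

theorem psum_one (M : ℕ) : ∃ z, psum M 1 = 1 + r2 ^ M * z := by
  unfold psum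
  rcases M with _ | M
  · exact ⟨-1, by simp⟩
  · refine ⟨0, ?_⟩
    rw [Finset.sum_range_succ', mul_zero, add_zero, PowerSeries.coeff_zero_one,
      Polynomial.eval₂_one, pow_zero, mul_one, Finset.sum_eq_zero, zero_add]
    intro m _
    rw [PowerSeries.coeff_one, if_neg (Nat.succ_ne_zero m), Polynomial.eval₂_zero, zero_mul]

theorem pf_CMP (hUQ : Pool.Agent.H59.LIN.T_UQ) : Pool.Agent.H59.LIN.T_CMP := by
  intro T T' hT hT' n w M
  set I : Ideal (Zsqrtd 2) := Ideal.span {r2 ^ M} with hI
  set q : Zsqrtd 2 →+* (Zsqrtd 2 ⧸ I) := Ideal.Quotient.mk I with hq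
  have hqM : ∀ z, q (r2 ^ M * z) = 0 := fun z => by
    apply Ideal.Quotient.eq_zero_iff_mem.2
    exact Ideal.mul_mem_right _ _ (Ideal.subset_span rfl)
  have hS : ∀ f, q (psum M (sK * f)) = q r2 * q (psum M f) := by
    intro f
    obtain ⟨z, hz⟩ := psum_sK M f
    rw [hz, map_add, hqM, add_zero, map_mul]
  have hD : ∀ f, q (psum M (dK * f)) = q r2 * q (psum M f) := by
    intro f
    rw [psum_dK, map_mul]
  have h1 : Skn (q r2) (q r2) fun n w => q (psum M (T n w)) := by
    refine ⟨?_, ?_, ?_, ?_, ?_, ?_, ?_, ?_⟩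
    · obtain ⟨z, hz⟩ := psum_one M
      show q (psum M (T 0 [])) = 1
      rw [hT.one, hz, map_add, hqM, add_zero, map_one]
    · intro n w
      show q (psum M (T (n + 1) (up w))) = q r2 * q (psum M (T n w))
      rw [hT.dis, hD]
    · intro n w b
      show q (psum M (T (n + 1) (up w ++ [(Fin.last n, b)]))) = q (psum M (T n w))
      rw [hT.stab]
    · intro n u v
      show q (psum M (T n (u ++ v))) = q (psum M (T n (v ++ u)))
      rw [hT.conj]
    · intro n u v i b
      show q (psum M (T n (u ++ (i, b) :: (i, !b) :: v))) = q (psum M (T n (u ++ v)))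
      rw [hT.cancel]
    · intro n u v i j b c hij
      show q (psum M (T n (u ++ (i, b) :: (j, c) :: v))) =
        q (psum M (T n (u ++ (j, c) :: (i, b) :: v)))
      rw [hT.far n u v i j b c hij]
    · intro n u v i j hij
      show q (psum M (T n (u ++ (i, true) :: (j, true) :: (i, true) :: v))) =
        q (psum M (T n (u ++ (j, true) :: (i, true) :: (j, true) :: v)))
      rw [hT.braid n u v i j hij]
    · intro n u v i
      show q (psum M (T n (u ++ (i, true) :: v))) =
        (1 - q r2 * q r2) * q (psum M (T n (u ++ (i, false) :: v))) +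
          q r2 * q (psum M (T n (u ++ v)))
      have e1 : (1 - sK * dK) * T n (u ++ (i, false) :: v) + sK * T n (u ++ v) =
          T n (u ++ (i, false) :: v) + (-(sK * (dK * T n (u ++ (i, false) :: v))) +
            sK * T n (u ++ v)) := by ring
      rw [hT.skein, e1, psum_add, psum_add, psum_neg, map_add, map_add, map_neg, hS, hS, hD]
      ring
  have h2 : Skn (q r2) (q r2) fun n w => q (T' n w) := by
    refine ⟨?_, ?_, ?_, ?_, ?_, ?_, ?_, ?_⟩
    · show q (T' 0 []) = 1
      rw [hT'.one, map_one]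
    · intro n w
      show q (T' (n + 1) (up w)) = q r2 * q (T' n w)
      rw [hT'.dis, map_mul]
    · intro n w b
      show q (T' (n + 1) (up w ++ [(Fin.last n, b)])) = q (T' n w)
      rw [hT'.stab]
    · intro n u v
      show q (T' n (u ++ v)) = q (T' n (v ++ u))
      rw [hT'.conj]
    · intro n u v i b
      show q (T' n (u ++ (i, b) :: (i, !b) :: v)) = q (T' n (u ++ v))
      rw [hT'.cancel]
    · intro n u v i j b c hij
      show q (T' n (u ++ (i, b) :: (j, c) :: v)) = q (T' n (u ++ (j, c) :: (i, b) :: v))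
      rw [hT'.far n u v i j b c hij]
    · intro n u v i j hij
      show q (T' n (u ++ (i, true) :: (j, true) :: (i, true) :: v)) =
        q (T' n (u ++ (j, true) :: (i, true) :: (j, true) :: v))
      rw [hT'.braid n u v i j hij]
    · intro n u v i
      show q (T' n (u ++ (i, true) :: v)) =
        (1 - q r2 * q r2) * q (T' n (u ++ (i, false) :: v)) + q r2 * q (T' n (u ++ v))
      rw [hT'.skein, map_add, map_mul, map_mul, map_sub, map_mul, map_one]
  have h3 : (1 - q r2 * q r2) * (-1) = 1 := by
    have h4 : r2 * r2 = 2 := by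
      unfold r2
      ext <;> simp
    rw [← map_mul, h4, map_ofNat]
    ring
  have h5 := hUQ (Zsqrtd 2 ⧸ I) (q r2) (q r2) (-1) _ _ h3 h2 h1 n w
  have h6 : T' n w - psum M (T n w) ∈ I := Ideal.Quotient.eq.1 h5
  obtain ⟨z, hz⟩ := Ideal.mem_span_singleton'.1 h6
  refine ⟨z, ?_⟩
  have h7 : T' n w = psum M (T n w) + r2 ^ M * z := by
    linear_combination -hz
  exact h7

end Pool.Agent.H60.LIN
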