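import Pool.Agent.H59.LIN.Targets

/-!
# The coefficients of the HOMFLYPT weight system are polynomials in the basic symbols
-/

open Finset Polynomial
open Pool.Agent.H59.LIN

namespace Pool.Agent.H60.LIN

/-- a polynomial in the basic symbols -/
def Pol (F : (d : ℕ) → CD d → SF (Fin d) ℚ) : Prop :=
  ∃ P : MvPolynomial (ℕ × ℕ) ℚ, ∀ (d : ℕ) (D : CD d), F d D = MvPolynomial.aeval (phi D) P

theorem Pol.zero : Pol fun _ _ => 0 := ⟨0, fun d D => (map_zero _).symm⟩

theorem Pol.one : Pol fun _ _ => 1 := ⟨1, fun d D => (map_one _).symm⟩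

theorem Pol.var (b : ℕ × ℕ) : Pol fun _ D => phi D b :=
  ⟨MvPolynomial.X b, fun d D => (MvPolynomial.aeval_X _ _).symm⟩

theorem Pol.add {F G : (d : ℕ) → CD d → SF (Fin d) ℚ} (hF : Pol F) (hG : Pol G) :
    Pol fun d D => F d D + G d D := by
  obtain ⟨P, hP⟩ := hF
  obtain ⟨Q, hQ⟩ := hG
  exact ⟨P + Q, fun d D => by rw [map_add, ← hP, ← hQ]⟩

theorem Pol.neg {F : (d : ℕ) → CD d → SF (Fin d) ℚ} (hF : Pol F) :
    Pol fun d D => -F d D := by
  obtain ⟨P, hP⟩ := hF
  exact ⟨-P, fun d D => by rw [map_neg, ← hP]⟩

theorem Pol.smul {F : (d : ℕ) → CD d → SF (Fin d) ℚ} (hF : Pol F) (c : ℚ) :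
    Pol fun d D => c • F d D := by
  obtain ⟨P, hP⟩ := hF
  exact ⟨c • P, fun d D => by rw [map_smul, ← hP]⟩

theorem Pol.pow {F : (d : ℕ) → CD d → SF (Fin d) ℚ} (hF : Pol F) (k : ℕ) :
    Pol fun d D => F d D ^ k := by
  obtain ⟨P, hP⟩ := hF
  exact ⟨P ^ k, fun d D => by rw [map_pow, ← hP]⟩

theorem Pol.sum {F : ℕ → (d : ℕ) → CD d → SF (Fin d) ℚ} (s : Finset ℕ)
    (hF : ∀ i ∈ s, Pol (F i)) : Pol fun d D => ∑ i ∈ s, F i d D := by
  classical
  induction s using Finset.induction_on with
  | empty => simpa using Pol.zero
  | insert i s hi ih =>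
    have h1 : (fun d (D : CD d) => ∑ l ∈ insert i s, F l d D) =
        fun d D => F i d D + ∑ l ∈ s, F l d D := by
      funext d D
      rw [Finset.sum_insert hi]
    rw [h1]
    exact (hF i (mem_insert_self i s)).add (ih fun l hl => hF l (mem_insert_of_mem hl))

theorem Pol.congr {F G : (d : ℕ) → CD d → SF (Fin d) ℚ} (hF : Pol F)
    (h : ∀ d D, G d D = F d D) : Pol G := by
  obtain ⟨P, hP⟩ := hF
  exact ⟨P, fun d D => by rw [h, hP]⟩

theorem pf_ETA (hHCO : Pool.Agent.H59.LIN.T_HCO) : Pool.Agent.H59.LIN.T_ETA := by
  intro m j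
  show Pol fun d D => Pool.Agent.H59.LIN.eta D m j
  induction j using Nat.strong_induction_on with
  | _ j ih =>
    by_cases h0 : j ≤ m ∧ Even (j + m)
    swap
    · refine Pol.zero.congr fun d D => ?_
      funext A
      show (if A.card = m then ((hh D A).coeff j : ℚ) else 0) = (0 : ℚ)
      split_ifs with hA
      · have h1 : (hh D A).coeff j = 0 := by
          by_contra hne
          have h2 := (hHCO d D A).2.2 j hne
          rw [hA] at h2
          exact h0 h2
        rw [h1, Int.cast_zero]
      · rfl
    obtain ⟨hjm, hev⟩ := h0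
    rcases hjm.lt_or_eq with hlt | heq
    · -- j < m
      obtain ⟨t, ht⟩ : ∃ t, m = j + 2 * t + 2 := by
        obtain ⟨k, hk⟩ := hev
        exact ⟨k - j - 1, by omega⟩
      have hmb : mb (j, t) = m := ht.symm
      rcases Nat.eq_zero_or_pos j with hj0 | hj0
      · subst hj0
        rcases Nat.eq_zero_or_pos t with ht0 | ht0
        · subst ht0
          refine (Pol.var (0, 0)).congr fun d D => ?_
          have h1 : m = 2 := by omega
          subst h1
          simp [phi]
        · have h2 : Pol fun d D => Pool.Agent.H59.LIN.eta D 2 0 := by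
            refine (Pol.var (0, 0)).congr fun d D => ?_
            simp [phi]
          refine (((Pol.var (0, t)).smul 2).add
            ((h2.pow (t + 1)).smul (((t + 1).factorial : ℚ)⁻¹))).congr fun d D => ?_
          have h1 : m = 2 * t + 2 := by omega
          have h3 : phi D (0, t) = (1 / 2 : ℚ) • (Pool.Agent.H59.LIN.eta D (2 * t + 2) 0 -
              ((t + 1).factorial : ℚ)⁻¹ • (Pool.Agent.H59.LIN.eta D 2 0) ^ (t + 1)) := by
            unfold phi
            rw [if_pos rfl, if_neg (show ¬ t = 0 by omega)]
          rw [h3, h1, smul_smul]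
          norm_num
      · have h3 : ∀ (d : ℕ) (D : CD d), phi D (j, t) =
            Pool.Agent.H59.LIN.eta D m j +
              ∑ l ∈ range (j / 2), Pool.Agent.H59.LIN.eta D m (j - 2 * (l + 1)) := by
          intro d D
          unfold phi
          rw [if_neg (show ¬ (j, t).1 = 0 by simpa using hj0.ne'), Finset.sum_range_succ', hmb,
            add_comm]
          rfl
        refine ((Pol.var (j, t)).add (Pol.sum (range (j / 2))
          (F := fun l d D => Pool.Agent.H59.LIN.eta D m (j - 2 * (l + 1)))
          fun l hl => ih (j - 2 * (l + 1)) (by omega)).neg).congr fun d D => ?_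
        rw [h3]
        abel
    · -- j = m
      subst heq
      rcases Nat.eq_zero_or_pos j with hj0 | hj0
      · subst hj0
        refine Pol.one.congr fun d D => ?_
        funext A
        rw [SF.one_def]
        show (if A.card = 0 then ((hh D A).coeff 0 : ℚ) else 0) = _
        by_cases hA : A = ∅
        · rw [if_pos (by rw [hA, card_empty]), if_pos hA, (hHCO d D A).1 hA]
          simp
        · rw [if_neg (by rwa [card_eq_zero]), if_neg hA]
      · refine (Pol.sum (range j) (F := fun i d D => Pool.Agent.H59.LIN.eta D j i)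
          fun i hi => ih i (mem_range.1 hi)).neg.congr fun d D => ?_
        have h1 : ∑ i ∈ range (j + 1), Pool.Agent.H59.LIN.eta D j i = 0 := by
          funext A
          have h2 : ∀ s : Finset ℕ, (∑ i ∈ s, Pool.Agent.H59.LIN.eta D j i) A =
              ∑ i ∈ s, Pool.Agent.H59.LIN.eta D j i A := by
            intro s
            induction s using Finset.induction_on with
            | empty => rfl
            | insert a s ha ih2 =>
              rw [Finset.sum_insert ha, Finset.sum_insert ha, SF.add_def, ih2]
          rw [h2]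
          show ∑ i ∈ range (j + 1), (if A.card = j then ((hh D A).coeff i : ℚ) else 0) = 0
          by_cases hA : A.card = j
          · have hne : A ≠ ∅ := by
              rintro rfl
              rw [card_empty] at hA
              omega
            have h3 := (hHCO d D A).2.1 hne
            have h4 : (hh D A).natDegree < j + 1 := by
              apply Nat.lt_succ_of_le
              apply Polynomial.natDegree_le_iff_coeff_eq_zero.2
              intro k hk
              by_contra hk2
              have h5 := ((hHCO d D A).2.2 k hk2).1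
              omega
            rw [Polynomial.eval_eq_sum_range' h4] at h3
            have h6 : ((∑ i ∈ range (j + 1), (hh D A).coeff i * 1 ^ i : ℤ) : ℚ) = 0 := by
              rw [h3, Int.cast_zero]
            rw [← h6]
            push_cast
            apply Finset.sum_congr rfl
            intro i _
            rw [if_pos hA, one_pow, mul_one]
          · apply Finset.sum_eq_zero
            intro i _
            rw [if_neg hA]
        rw [Finset.sum_range_succ] at h1
        exact eq_neg_of_add_eq_zero_right h1

end Pool.Agent.H60.LIN
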