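import Pool.Agent.H59.LIN.Targets

/-!
# The coefficients of the HOMFLYPT polynomial
-/

open Finset Polynomial
open Pool.Agent.H59.LIN

namespace Pool.Agent.H60.LIN

theorem dif_pc (T : (n : ℕ) → Wd n → KK) (m i n d : ℕ) (w : SWd n) (t : Fin d → ℕ)
    (A : Finset (Fin d)) (ε : Fin d → Bool) :
    Dif A (cb (pc T m i n) w t) ε = (PowerSeries.coeff m (Dif A (cb (T n) w t) ε)).coeff i := by
  unfold Dif
  rw [map_sum, Polynomial.finset_sum_coeff]
  apply Finset.sum_congr rfl
  intro S _
  unfold cb pc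
  rcases Nat.even_or_odd S.card with h | h
  · rw [h.neg_one_pow, h.neg_one_pow, one_mul, one_mul]
  · rw [h.neg_one_pow, h.neg_one_pow, neg_one_mul, neg_one_mul, map_neg, Polynomial.coeff_neg]

theorem kinv_pc (T : (n : ℕ) → Wd n → KK) (h : Skn sK dK T) (m i : ℕ) : KInv (pc T m i) := by
  intro x y hxy _
  unfold pc
  cases hxy with
  | cancel n u v j b => rw [h.cancel]
  | far n u v j l b c hjl => rw [h.far n u v j l b c hjl]
  | braid n u v j l hjl => rw [h.braid n u v j l hjl]
  | conj n u v => rw [h.conj]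
  | stab n w b => rw [h.stab]

theorem pf_SYM (hFTS : Pool.Agent.H59.LIN.T_FTS) (hCMD : Pool.Agent.H59.LIN.T_CMD) :
    Pool.Agent.H59.LIN.T_SYM := by
  intro T hT m i
  refine ⟨kinv_pc T hT m i, ?_, ?_⟩
  · intro n w d t _ ht hdb A ε hA
    rw [dif_pc, (hFTS T hT n w d t ht hdb A ε).1 m hA, Polynomial.coeff_zero]
  · intro n w d D t hw ht hg A
    obtain ⟨hdb, hc⟩ := hCMD n w d D t hw ht hg
    unfold sy Pool.Agent.H59.LIN.eta
    by_cases hA : A.card = m
    · rw [if_pos hA, if_pos hA, dif_pc]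
      have h1 := (hFTS T hT n w d t ht hdb A (fun _ => true)).2
      rw [hA] at h1
      have h2 : PowerSeries.coeff m (Dif A (cb (T n) w t) fun _ => true) = hh D A := by
        rw [h1]
        unfold hh
        apply Finset.sum_congr rfl
        intro B _
        rw [hA, hc B]
      rw [h2]
    · rw [if_neg hA, if_neg hA]
      rfl

end Pool.Agent.H60.LIN
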