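import Pool.Agent.H59.LIN.Targets

/-!
# Symbols of products of functions on the cube
-/

open Finset
open Pool.Agent.H59.LIN

namespace Pool.Agent.H60.LIN

theorem dif_insert {α K : Type} [DecidableEq α] [CommRing K] (F : (α → Bool) → K)
    (A : Finset α) (x : α) (hx : x ∉ A) (ε : α → Bool) :
    Dif (insert x A) F ε =
      Dif A F (Function.update ε x true) - Dif A F (Function.update ε x false) := by
  unfold Dif
  rw [Finset.sum_powerset_insert hx, ← sub_neg_eq_add, ← Finset.sum_neg_distrib]
  congr 1
  · apply Finset.sum_congr rfl
    intro S hS
    have hxS : x ∉ S := fun h => hx (mem_powerset.1 hS h)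
    congr 2
    funext y
    by_cases hy : y = x
    · subst hy
      simp [hx, hxS]
    · simp [hy]
  · apply Finset.sum_congr rfl
    intro S hS
    have hxS : x ∉ S := fun h => hx (mem_powerset.1 hS h)
    rw [card_insert_of_notMem hxS, pow_succ, mul_neg_one, neg_mul, neg_neg]
    congr 2
    funext y
    by_cases hy : y = x
    · subst hy
      simp [hx]
    · simp [hy]

theorem leibniz {α K : Type} [DecidableEq α] [CommRing K] (F G : (α → Bool) → K)
    (A : Finset α) (ε : α → Bool) :
    Dif A (fun ε => F ε * G ε) ε = ∑ B ∈ A.powerset,
      Dif B F (fun x => if x ∈ A \ B then false else ε x) *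
        Dif (A \ B) G (fun x => if x ∈ B then true else ε x) := by
  induction A using Finset.induction_on generalizing ε with
  | empty => simp [Dif]
  | insert x A hx ih =>
    rw [dif_insert _ A x hx, ih, ih, ← Finset.sum_sub_distrib, Finset.sum_powerset_insert hx,
      ← Finset.sum_add_distrib]
    apply Finset.sum_congr rfl
    intro B hB
    have hBA := mem_powerset.1 hB
    have hxB : x ∉ B := fun h => hx (hBA h)
    have hxAB : x ∉ A \ B := fun h => hx (mem_sdiff.1 h).1
    have e1 : (insert x A) \ B = insert x (A \ B) := by
      rw [insert_sdiff_of_notMem _ hxB]
    have e2 : (insert x A) \ (insert x B) = A \ B := by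
      ext y
      simp only [mem_sdiff, mem_insert, not_or]
      constructor
      · rintro ⟨h1 | h1, h2, h3⟩
        · exact absurd h1 h2
        · exact ⟨h1, h3⟩
      · rintro ⟨h1, h2⟩
        refine ⟨Or.inr h1, ?_, h2⟩
        rintro rfl
        exact hx h1
    rw [e1, e2, dif_insert _ (A \ B) x hxAB, dif_insert _ B x hxB]
    have f1 : (fun y => if y ∈ insert x (A \ B) then false else ε y) =
        fun y => if y ∈ A \ B then false else Function.update ε x false y := by
      funext y
      by_cases hy : y = x
      · subst hy
        simp [hx]
      · simp [hy]
    have f2 : Function.update (fun y => if y ∈ B then true else ε y) x true =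
        fun y => if y ∈ B then true else Function.update ε x true y := by
      funext y
      by_cases hy : y = x
      · subst hy
        simp
      · simp [hy]
    have f3 : Function.update (fun y => if y ∈ B then true else ε y) x false =
        fun y => if y ∈ B then true else Function.update ε x false y := by
      funext y
      by_cases hy : y = x
      · subst hy
        simp [hxB]
      · simp [hy]
    have f4 : Function.update (fun y => if y ∈ A \ B then false else ε y) x true =
        fun y => if y ∈ A \ B then false else Function.update ε x true y := by
      funext y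
      by_cases hy : y = x
      · subst hy
        simp [hx]
      · simp [hy]
    have f5 : Function.update (fun y => if y ∈ A \ B then false else ε y) x false =
        fun y => if y ∈ A \ B then false else Function.update ε x false y := by
      funext y
      by_cases hy : y = x
      · subst hy
        simp
      · simp [hy]
    have f6 : (fun y => if y ∈ insert x B then true else ε y) =
        fun y => if y ∈ B then true else Function.update ε x true y := by
      funext y
      by_cases hy : y = x
      · subst hy
        simp
      · simp [hy]
    rw [f1, f2, f3, f4, f5, f6]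
    ring

theorem pf_CAP (hCAI : Pool.Agent.H59.LIN.T_CAI) : Pool.Agent.H59.LIN.T_CAP := by
  intro α K _ _ _ F G a b hF hG
  have hc : ∀ A B : Finset α, B ∈ A.powerset → B.card + (A \ B).card = A.card := by
    intro A B hB
    rw [Nat.add_comm]
    exact card_sdiff_add_card_eq_card (mem_powerset.1 hB)
  constructor
  · intro A ε hA
    rw [leibniz]
    apply Finset.sum_eq_zero
    intro B hB
    have h1 := hc A B hB
    by_cases h2 : a < B.card
    · rw [hF B _ h2, zero_mul]
    · rw [hG (A \ B) _ (by omega), mul_zero]
  · funext A
    rw [SF.mul_def]
    unfold sy
    by_cases hA : A.card = a + b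
    · rw [if_pos hA, leibniz]
      apply Finset.sum_congr rfl
      intro B hB
      have h1 := hc A B hB
      by_cases h2 : B.card = a
      · have h3 : (A \ B).card = b := by omega
        rw [if_pos h2, if_pos h3]
        have h4 : Dg F B.card := by rw [h2]; exact hF
        have h5 : Dg G (A \ B).card := by rw [h3]; exact hG
        rw [hCAI α K F B h4 _ (fun _ => true), hCAI α K G (A \ B) h5 _ (fun _ => true)]
      · rw [if_neg h2, zero_mul]
        rcases lt_or_gt_of_ne h2 with h3 | h3
        · rw [hG (A \ B) _ (by omega), mul_zero]
        · rw [hF B _ h3, zero_mul]
    · rw [if_neg hA]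
      symm
      apply Finset.sum_eq_zero
      intro B hB
      have h1 := hc A B hB
      by_cases h2 : B.card = a
      · rw [if_neg (show ¬ (A \ B).card = b by omega), mul_zero]
      · rw [if_neg h2, zero_mul]

end Pool.Agent.H60.LIN
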